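import Pool.Agent.UL6.Stmts
import Pool.Agent.Helper32_UL5.LAT
import Pool.Agent.Helper27_UL5.HMX

/-!
# Row LTF of squad UL6 (MP_c7c9bf_co): the lattice for the truncated double cone
-/

set_option autoImplicit false

namespace Pool.Agent.UL6.H32

open MeasureTheory Set Pool.Agent.UL3 Pool.Agent.UL4 Pool.Agent.UL5
open Pool.Agent.UL5.H32 (int_neg int_smul lt_one cr_smul' level_lt)

/-- integers and the step `3 - 4 a` -/
theorem two_cases {a s x y : ℝ} (c : ℤ) (h3 : 0 ≤ 3 - 4 * a) (hs : s = x - c * (3 - 4 * a))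
    (h1 : y ≤ x) (h2 : x - (3 - 4 * a) ≤ -y) : y ≤ |s| := by
  rcases le_or_gt c 0 with hc | hc
  · have hc' : (c : ℝ) ≤ 0 := by exact_mod_cast hc
    have : y ≤ s := by rw [hs]; nlinarith
    exact this.trans (le_abs_self s)
  · have hc' : (1 : ℝ) ≤ c := by exact_mod_cast hc
    have : s ≤ -y := by rw [hs]; nlinarith
    have h := neg_le_abs s
    linarith

theorem two_cases' {a s x y : ℝ} (c : ℤ) (h3 : 0 ≤ 3 - 4 * a) (hs : s = -x - c * (3 - 4 * a))
    (h1 : y ≤ x) (h2 : x - (3 - 4 * a) ≤ -y) : y ≤ |s| := by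
  have h := two_cases (a := a) (s := -s) (x := x) (y := y) (-c) h3
    (by rw [hs]; push_cast; ring) h1 h2
  rwa [abs_neg] at h

theorem core {C : Set (ℝ × ℝ)} (h : PB C) {u q : ℝ × ℝ} {a : ℝ} (ha0 : 0 < a) (ha : a ≤ 1 / 4)
    (hu : u ∉ interior C)
    (hle : ∀ w ∈ C, |cr u w| ≤ Hm C u) (hpos : 0 < Hm C u)
    (hHY : (1 - 3 * a / 2) * Hm C u ≤ (1 - a / 2) * cr u q)
    (hs : ∀ s : ℝ, (1 - 3 * a / 2) / (1 - a / 2) ≤ |s| → q + s • u ∉ interior C)
    (k c n : ℤ) (hn : 0 ≤ n) (h0 : ¬ (k = 0 ∧ c = 0 ∧ n = 0)) (z s : ℝ)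
    (hz : z = a * (k + n / 2)) (hsd : s = k * (1 - a) - c * (3 - 4 * a) - n * (1 - 3 * a / 2))
    (hz1 : |z| < 3 * a)
    (hm : (1 - |z|)⁻¹ • (s • u + (n * (1 - a / 2) : ℝ) • q) ∈ interior C) : False := by
  have hzp : 0 < 1 - |z| := by linarith
  have h34 : 0 ≤ 3 - 4 * a := by linarith
  have hb : 0 < 1 - a / 2 := by linarith
  have hlev := level_lt h hle hpos hm
  have hcr : cr u ((1 - |z|)⁻¹ • (s • u + (n * (1 - a / 2) : ℝ) • q)) =
      (1 - |z|)⁻¹ * (n * ((1 - a / 2) * cr u q)) := by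
    rw [cr_smul']
    unfold cr
    simp only [Prod.smul_fst, Prod.smul_snd, smul_eq_mul, Prod.fst_add, Prod.snd_add]
    ring
  rw [hcr] at hlev
  have hinv : (1 - |z|) * (1 - |z|)⁻¹ = 1 := mul_inv_cancel₀ hzp.ne'
  have hip : 0 < (1 - |z|)⁻¹ := inv_pos.2 hzp
  have hlev2 : n * ((1 - a / 2) * cr u q) < (1 - |z|) * Hm C u := by
    have := mul_lt_mul_of_pos_left hlev hzp
    rwa [← mul_assoc, hinv, one_mul] at this
  have hzn := abs_nonneg z
  generalize hYd : (1 - a / 2) * cr u q = Y at hHY hlev2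
  rcases lt_trichotomy n 1 with h1 | h1 | h1
  · have hn0 : n = 0 := by omega
    subst hn0
    have hm2 : ((1 - |z|)⁻¹ * s) • u ∈ interior C := by
      have e : (1 - |z|)⁻¹ • (s • u + (((0 : ℤ) : ℝ) * (1 - a / 2) : ℝ) • q) =
          ((1 - |z|)⁻¹ * s) • u := by
        rw [Int.cast_zero, zero_mul, zero_smul, add_zero, smul_smul]
      rwa [e] at hm
    have h2 := lt_one h hu hm2
    rw [abs_mul, abs_of_pos hip] at h2
    have h3 : |s| < 1 - |z| := by
      have := mul_lt_mul_of_pos_left h2 hzp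
      rwa [← mul_assoc, hinv, one_mul, mul_one] at this
    have hz' : z = a * k := by rw [hz]; push_cast; ring
    have hs' : s = k * (1 - a) - c * (3 - 4 * a) := by rw [hsd]; push_cast; ring
    have hk3 : |(k : ℝ)| < 3 := by
      rw [hz', abs_mul, abs_of_pos ha0] at hz1
      have := abs_nonneg (k : ℝ)
      nlinarith
    have hk4 : |k| < 3 := by exact_mod_cast hk3
    have hk5 := abs_lt.1 hk4
    have hcase : k = 0 ∨ k = 1 ∨ k = 2 ∨ k = -1 ∨ k = -2 := by omega
    rcases hcase with rfl | rfl | rfl | rfl | rfl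
    · have hc0 : c ≠ 0 := fun hc => h0 ⟨rfl, hc, rfl⟩
      have hs2 : s = -(c * (3 - 4 * a)) := by rw [hs']; push_cast; ring
      have hc1 : (1 : ℝ) ≤ |(c : ℝ)| := by exact_mod_cast Int.one_le_abs hc0
      rw [hs2, abs_neg, abs_mul, abs_of_nonneg h34] at h3
      nlinarith
    · have hz2 : |z| = a := by
        rw [hz', Int.cast_one, mul_one, abs_of_pos ha0]
      have h4 : 1 - a ≤ |s| := two_cases (x := 1 - a) c h34
        (by rw [hs']; push_cast; ring) le_rfl (by linarith)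
      linarith
    · have hz2 : |z| = 2 * a := by
        rw [hz', Int.cast_ofNat, abs_of_pos (by positivity)]
        ring
      have h4 : 1 - 2 * a ≤ |s| := two_cases (x := 2 * (1 - a)) c h34
        (by rw [hs']; push_cast; ring) (by linarith) (by linarith)
      linarith
    · have hz2 : |z| = a := by
        rw [hz', Int.cast_neg, Int.cast_one, mul_neg, mul_one, abs_neg, abs_of_pos ha0]
      have h4 : 1 - a ≤ |s| := two_cases' (x := 1 - a) c h34
        (by rw [hs']; push_cast; ring) le_rfl (by linarith)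
      linarith
    · have hz2 : |z| = 2 * a := by
        rw [hz', Int.cast_neg, Int.cast_ofNat, mul_neg, abs_neg, abs_of_pos (by positivity)]
        ring
      have h4 : 1 - 2 * a ≤ |s| := two_cases' (x := 2 * (1 - a)) c h34
        (by rw [hs']; push_cast; ring) (by linarith) (by linarith)
      linarith
  · subst h1
    have hz' : z = a / 2 * ((2 * k + 1 : ℤ) : ℝ) := by rw [hz]; push_cast; ring
    by_cases hz3 : 3 * a / 2 ≤ |z|
    · push_cast at hlev2
      nlinarith
    · push Not at hz3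
      have hk3 : |((2 * k + 1 : ℤ) : ℝ)| < 3 := by
        rw [hz', abs_mul, abs_of_pos (by positivity)] at hz3
        have := abs_nonneg ((2 * k + 1 : ℤ) : ℝ)
        nlinarith
      have hk4 : |(2 * k + 1 : ℤ)| < 3 := by exact_mod_cast hk3
      have hk5 := abs_lt.1 hk4
      have hcase : k = 0 ∨ k = -1 := by omega
      have hfin : 1 - 3 * a / 2 ≤ |s| ∧ |z| = a / 2 := by
        rcases hcase with rfl | rfl
        · refine ⟨two_cases' (x := 1 - 3 * a / 2) c h34 (by rw [hsd]; push_cast; ring) le_rfl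
            (by linarith), ?_⟩
          rw [hz', abs_of_pos]
          · push_cast
            ring
          · push_cast
            linarith
        · refine ⟨two_cases' (x := 2 - 5 * a / 2) c h34 (by rw [hsd]; push_cast; ring)
            (by linarith) (by linarith), ?_⟩
          rw [hz', abs_of_neg]
          · push_cast
            ring
          · push_cast
            linarith
      apply hs (s / (1 - a / 2))
      · rw [abs_div, abs_of_pos hb]
        exact div_le_div_of_nonneg_right hfin.1 hb.le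
      · have e : (1 - |z|)⁻¹ • (s • u + (((1 : ℤ) : ℝ) * (1 - a / 2) : ℝ) • q) =
            q + (s / (1 - a / 2)) • u := by
          rw [hfin.2, Int.cast_one, one_mul, smul_add, smul_smul, smul_smul,
            inv_mul_cancel₀ hb.ne', one_smul, add_comm, div_eq_inv_mul s (1 - a / 2)]
        rwa [e] at hm
  · have hn2 : (2 : ℝ) ≤ n := by exact_mod_cast (show (2 : ℤ) ≤ n by omega)
    have h3 : (1 - |z|) * Hm C u ≤ Hm C u := by nlinarith
    have hY0 : 0 < Y := by nlinarith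
    nlinarith

/-- **LTF** -/
theorem ltf (tda' : TdaStmt) : LtfStmt := by
  intro C u q a hC ha0 ha huC hu hHY hs
  obtain ⟨hle, -, -, hpos, -⟩ := Pool.Agent.UL5.H27.hmx C hC
  have hu0 : u ≠ 0 := by
    rintro rfl
    exact hu hC.zero_mem
  have hHp := hpos u hu0
  have hb : 0 < 1 - a / 2 := by linarith
  have hY : 0 < cr u q := by
    have h1 : 0 < (1 - 3 * a / 2) * Hm C u := mul_pos (by linarith) hHp
    have h2 : 0 < (1 - a / 2) * cr u q := lt_of_lt_of_le h1 hHY
    exact (mul_pos_iff_of_pos_left hb).1 h2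
  refine ⟨![up ((1 - a) • u) a, up (-(1 - 2 * a) • u) (2 * a),
    up (-(1 - 3 * a / 2) • u + (1 - a / 2) • q) (a / 2)], ?_⟩
  have hp : 0 < (3 * a - 4 * a ^ 2) * (1 - a / 2) * cr u q := by
    have h1 : 0 < 3 * a - 4 * a ^ 2 := by nlinarith
    positivity
  have hdt : dt ![up ((1 - a) • u) a, up (-(1 - 2 * a) • u) (2 * a),
      up (-(1 - 3 * a / 2) • u + (1 - a / 2) • q) (a / 2)] =
      (3 * a - 4 * a ^ 2) * (1 - a / 2) * cr u q := by
    unfold dt
    rw [Matrix.det_fin_three]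
    simp only [Matrix.of_apply, Matrix.cons_val_zero, Matrix.cons_val_one, Matrix.cons_val_two,
      Matrix.head_cons, Matrix.tail_cons, Matrix.cons_val, up_zero, up_one, up_two,
      Prod.smul_fst, Prod.smul_snd, smul_eq_mul, Prod.fst_add, Prod.snd_add]
    rw [← abs_of_pos hp, ← abs_neg ((3 * a - 4 * a ^ 2) * (1 - a / 2) * cr u q)]
    congr 1
    unfold cr
    ring
  refine ⟨by rw [hdt]; exact hp, ?_, hdt⟩
  intro n hn hmem
  have hsum : (∑ i, (n i : ℝ) • (![up ((1 - a) • u) a, up (-(1 - 2 * a) • u) (2 * a),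
      up (-(1 - 3 * a / 2) • u + (1 - a / 2) • q) (a / 2)] : Fin 3 → E3) i) =
      up ((((n 0 + 2 * n 1 : ℤ) : ℝ) * (1 - a) - n 1 * (3 - 4 * a) -
        n 2 * (1 - 3 * a / 2)) • u + (n 2 * (1 - a / 2)) • q)
        (a * (((n 0 + 2 * n 1 : ℤ) : ℝ) + n 2 / 2)) := by
    rw [Fin.sum_univ_three]
    simp only [Matrix.cons_val_zero, Matrix.cons_val_one, Matrix.cons_val_two, Matrix.head_cons,
      Matrix.tail_cons, Matrix.cons_val]
    rw [up_smul, up_smul, up_smul, up_add, up_add]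
    congr 1
    · push_cast
      module
    · push_cast
      ring
  rw [hsum] at hmem
  obtain ⟨hz1, hm⟩ := (tda' C (1 - 3 * a) hC (by linarith) (by linarith)).2.2.2 _ _ hmem
  have hz2 : |a * (((n 0 + 2 * n 1 : ℤ) : ℝ) + n 2 / 2)| < 3 * a := by linarith
  rcases le_or_gt 0 (n 2) with h2 | h2
  · refine core hC ha0 ha hu (hle u) hHp hHY hs (n 0 + 2 * n 1) (n 1) (n 2) h2 ?_ _ _ rfl rfl
      hz2 hm
    rintro ⟨e0, e1, e2⟩
    apply hn
    funext i
    fin_cases i
    · show n 0 = 0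
      omega
    · exact e1
    · exact e2
  · have hm2 := int_neg hC hm
    refine core hC ha0 ha hu (hle u) hHp hHY hs (-(n 0 + 2 * n 1)) (-n 1) (-n 2) (by omega) ?_
      (-(a * (((n 0 + 2 * n 1 : ℤ) : ℝ) + n 2 / 2)))
      (-(((n 0 + 2 * n 1 : ℤ) : ℝ) * (1 - a) - n 1 * (3 - 4 * a) -
        n 2 * (1 - 3 * a / 2))) ?_ ?_ ?_ ?_
    · rintro ⟨e0, e1, e2⟩
      omega
    · push_cast; ring
    · push_cast; ring
    · rwa [abs_neg]
    · rw [abs_neg]
      have e : (1 - |a * (((n 0 + 2 * n 1 : ℤ) : ℝ) + n 2 / 2)|)⁻¹ •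
          (-(((n 0 + 2 * n 1 : ℤ) : ℝ) * (1 - a) - n 1 * (3 - 4 * a) -
            n 2 * (1 - 3 * a / 2)) • u + (((-n 2 : ℤ) : ℝ) * (1 - a / 2)) • q) =
          -((1 - |a * (((n 0 + 2 * n 1 : ℤ) : ℝ) + n 2 / 2)|)⁻¹ •
          ((((n 0 + 2 * n 1 : ℤ) : ℝ) * (1 - a) - n 1 * (3 - 4 * a) -
            n 2 * (1 - 3 * a / 2)) • u + (n 2 * (1 - a / 2)) • q)) := by
        push_cast
        module
      rw [e]
      exact hm2

end Pool.Agent.UL6.H32
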